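import Pool.Agent.MP_46692b_an.H78.Spec

/-! One variable analytic germs: injective reparametrisation and level sets of the real part. -/

set_option autoImplicit false
open Filter Topology Set Metric Polynomial
open Pool.Agent.MP_46692b_an.H78

namespace Pool.Agent.MP_46692b_an.H17

/-- An even analytic germ is an analytic germ in the square of the variable. -/
lemma even_germ {c : ℝ → ℂ} (hc : AnalyticAt ℝ c 0) (he : ∀ᶠ x in 𝓝 (0 : ℝ), c (-x) = c x) :
    ∃ g : ℝ → ℂ, AnalyticAt ℝ g 0 ∧ ∀ᶠ x in 𝓝 (0 : ℝ), c x = g (x ^ 2) := by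
  obtain ⟨p, hp⟩ := hc
  have h1 := hasFPowerSeriesAt_iff.1 hp
  simp only [zero_add] at h1
  let q : FormalMultilinearSeries ℝ ℝ ℂ := fun n =>
    ContinuousMultilinearMap.mkPiRing ℝ (Fin n) (p.coeff (2 * n))
  have hq : ∀ n, q.coeff n = p.coeff (2 * n) := fun n => by
    show ContinuousMultilinearMap.mkPiRing ℝ (Fin n) (p.coeff (2 * n)) 1 = _
    rw [ContinuousMultilinearMap.mkPiRing_apply]; simp
  have inj : Function.Injective fun n : ℕ => 2 * n := fun a b h => by simpa using h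
  refine ⟨fun y => ∑' n, y ^ n • p.coeff (2 * n), ⟨q, hasFPowerSeriesAt_iff.2 ?_⟩, ?_⟩
  · have t : Tendsto (fun y : ℝ => √|y|) (𝓝 0) (𝓝 0) := by
      have : Continuous fun y : ℝ => √|y| := by fun_prop
      simpa using this.tendsto 0
    filter_upwards [t.eventually h1] with y hy
    simp only [hq, zero_add]
    refine Summable.hasSum (Summable.of_norm ?_)
    have h2 := (summable_norm_iff.2 hy.summable).comp_injective inj
    refine h2.congr fun n => ?_
    simp only [Function.comp, norm_smul, norm_pow, Real.norm_eq_abs, pow_mul,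
      Real.sq_sqrt (abs_nonneg y), abs_abs]
  · have t : Tendsto (fun y : ℝ => -y) (𝓝 0) (𝓝 0) := by
      simpa using (continuous_neg (G := ℝ)).tendsto 0
    filter_upwards [h1, t.eventually h1, he] with x h2 h3 h4
    have h5 := (h2.add h3).const_smul (1 / 2 : ℝ)
    rw [← inj.hasSum_iff] at h5
    · have h6 : HasSum (fun n => (x ^ 2) ^ n • p.coeff (2 * n)) (c x) := by
        have e1 : (1 / 2 : ℝ) • (c x + c (-x)) = c x := by
          rw [h4, ← two_smul ℝ, smul_smul]; norm_num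
        rw [e1] at h5
        refine h5.congr_fun fun n => ?_
        simp only [Function.comp, pow_mul, neg_sq]
        rw [← two_smul ℝ, smul_smul (1 / 2 : ℝ)]; norm_num
      exact h6.tsum_eq.symm
    · intro n hn
      have ho : Odd n := by
        rcases Nat.even_or_odd n with ⟨k, hk⟩ | h
        · exact absurd ⟨k, by simp only; omega⟩ hn
        · exact h
      rw [ho.neg_pow, neg_smul, add_neg_cancel, smul_zero]

lemma reparam {c c1 : ℝ → ℂ} {ρ : ℝ → ℝ} {ε : ℝ} (hε : 0 < ε) (hc : ContinuousOn ρ (Icc 0 ε))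
    (hm : StrictMonoOn ρ (Icc 0 ε)) (h0 : ρ 0 = 0) (he : ∀ᶠ t in 𝓝 (0 : ℝ), c t = c1 (ρ t))
    (h1 : ∀ᶠ δ in 𝓝[>] (0 : ℝ), IsArc (c1 '' Icc 0 δ)) :
    ∀ᶠ δ in 𝓝[>] (0 : ℝ), IsArc (c '' Icc 0 δ) := by
  have m0 : (0 : ℝ) ∈ Icc 0 ε := ⟨le_rfl, hε.le⟩
  have s : Ioo 0 ε ∈ 𝓝[>] (0 : ℝ) := Ioo_mem_nhdsGT hε
  have t : Tendsto ρ (𝓝[>] 0) (𝓝[>] 0) := by
    refine tendsto_nhdsWithin_iff.2 ⟨?_, ?_⟩
    · have := (hc 0 m0).tendsto
      rw [h0] at this
      exact this.mono_left (nhdsWithin_le_of_mem (mem_of_superset s Ioo_subset_Icc_self))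
    · filter_upwards [s] with x hx
      have := hm m0 (Ioo_subset_Icc_self hx) hx.1
      rwa [h0] at this
  obtain ⟨η, hη, he'⟩ := Metric.eventually_nhds_iff.1 he
  filter_upwards [t.eventually h1, s, Ioo_mem_nhdsGT hη] with δ a1 a2 a3
  have sub : Icc 0 δ ⊆ Icc 0 ε := Icc_subset_Icc le_rfl a2.2.le
  have e1 := (hc.mono sub).image_Icc_of_monotoneOn a2.1.le (hm.monotoneOn.mono sub)
  rw [h0] at e1
  rw [← e1, image_image] at a1
  have e2 : c '' Icc 0 δ = (fun x => c1 (ρ x)) '' Icc 0 δ := image_congr fun x hx => he' (by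
    rw [Real.dist_eq, sub_zero, abs_of_nonneg hx.1]; exact hx.2.trans_lt a3.2)
  rwa [e2]

lemma arc_inj {c : ℝ → ℂ} (hc : AnalyticAt ℝ c 0)
    (hi : ∃ ε > 0, ∀ x y : ℝ, |x| < ε → |y| < ε → c x = c y → x = y) :
    ∀ᶠ δ in 𝓝[>] (0 : ℝ), IsArc (c '' Icc 0 δ) := by
  obtain ⟨ε, hε, hi⟩ := hi
  obtain ⟨η, hη, ha⟩ := Metric.eventually_nhds_iff.1 hc.eventually_analyticAt
  have h2 : 0 < min ε η / 2 := by positivity
  filter_upwards [Ioo_mem_nhdsGT h2] with δ hδ
  have k : ∀ t ∈ Ioo (-1 : ℝ) 2, |δ * t| < min ε η := fun t ht => by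
    rw [abs_lt]; constructor <;> nlinarith [hδ.1, hδ.2, ht.1, ht.2]
  refine ⟨fun t => c (δ * t), -1, 2, by norm_num, by norm_num, fun t ht => ?_,
    fun s hs t ht h => ?_, ?_⟩
  · have a1 : AnalyticAt ℝ c (δ * t) := ha (by
      rw [Real.dist_eq, sub_zero]; exact (k t ht).trans_le (min_le_right _ _))
    exact a1.comp (analyticAt_const.mul analyticAt_id)
  · exact mul_left_cancel₀ hδ.1.ne' (hi _ _ ((k s hs).trans_le (min_le_left _ _))
      ((k t ht).trans_le (min_le_left _ _)) h)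
  · rw [← image_image c fun t => δ * t, image_mul_left_Icc' hδ.1]; simp

lemma arc_aux (k : ℕ) : ∀ (c h : ℝ → ℂ), AnalyticAt ℝ c 0 → AnalyticAt ℝ h 0 → h 0 ≠ 0 → 0 < k →
    (∀ᶠ t in 𝓝 (0 : ℝ), c t - c 0 = t ^ k • h t) →
    ∀ᶠ δ in 𝓝[>] (0 : ℝ), IsArc (c '' Icc 0 δ) := by
  induction k using Nat.strong_induction_on with
  | _ k ih =>
  intro c h hc hh h0 hk he
  have k0 : (0 : ℝ) < k := by exact_mod_cast hk
  set e : ℝ → ℝ := fun t => Real.exp (Real.log ((h t).re ^ 2 + (h t).im ^ 2) / (2 * k)) with hedef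
  have hn : ∀ t, (h t).re ^ 2 + (h t).im ^ 2 = ‖h t‖ ^ 2 := fun t => by
    rw [Complex.sq_norm, Complex.normSq_apply]; ring
  have ea : AnalyticAt ℝ e 0 := by
    have a1 : AnalyticAt ℝ (fun t => (h t).re) 0 := (Complex.reCLM.analyticAt _).comp hh
    have a2 : AnalyticAt ℝ (fun t => (h t).im) 0 := (Complex.imCLM.analyticAt _).comp hh
    have a3 : AnalyticAt ℝ (fun t => Real.log ((h t).re ^ 2 + (h t).im ^ 2)) 0 :=
      ((a1.pow 2).add (a2.pow 2)).log (by
        show 0 < (h 0).re ^ 2 + (h 0).im ^ 2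
        rw [hn]; exact pow_pos (norm_pos_iff.2 h0) 2)
    exact (a3.div analyticAt_const (by positivity)).rexp'
  have ek : ∀ t, h t ≠ 0 → e t ^ k = ‖h t‖ := fun t ht => by
    have : 0 < ‖h t‖ := norm_pos_iff.2 ht
    simp only [hedef]
    rw [← Real.exp_nat_mul, hn, Real.log_pow]
    rw [show (k : ℝ) * (((2 : ℕ) : ℝ) * Real.log ‖h t‖ / (2 * k)) = Real.log ‖h t‖ by
      push_cast; field_simp, Real.exp_log this]
  have epos : ∀ t, 0 < e t := fun t => Real.exp_pos _
  set ρ : ℝ → ℝ := fun t => t * e t with hρ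
  have ρa : AnalyticAt ℝ ρ 0 := analyticAt_id.mul ea
  have ρ0 : ρ 0 = 0 := by simp [hρ]
  have ρd : deriv ρ 0 = e 0 := by
    have := ((hasDerivAt_id' (0 : ℝ)).fun_mul ea.differentiableAt.hasDerivAt).deriv
    simpa using this
  have ρd' : deriv ρ 0 ≠ 0 := by rw [ρd]; exact (epos 0).ne'
  set σ := ρa.hasStrictDerivAt.localInverse _ _ _ ρd' with hσ
  have σa : AnalyticAt ℝ σ 0 := by
    have := ρa.analyticAt_localInverse ρd'
    rwa [ρ0] at this
  have σl : ∀ᶠ t in 𝓝 (0 : ℝ), σ (ρ t) = t := HasStrictDerivAt.eventually_left_inverse ..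
  have σr : ∀ᶠ x in 𝓝 (0 : ℝ), ρ (σ x) = x := by
    have := HasStrictDerivAt.eventually_right_inverse ρa.hasStrictDerivAt ρd'
    rwa [ρ0] at this
  have σ0 : σ 0 = 0 := by have := σl.self_of_nhds; rwa [ρ0] at this
  have σt : Tendsto σ (𝓝 0) (𝓝 0) := by have := σa.continuousAt.tendsto; rwa [σ0] at this
  set c1 : ℝ → ℂ := fun x => c (σ x) with hc1
  have c1a : AnalyticAt ℝ c1 0 := AnalyticAt.comp_of_eq hc σa σ0
  have c10 : c1 0 = c 0 := by simp only [hc1, σ0]
  have nrm : ∀ᶠ x in 𝓝 (0 : ℝ), ‖c1 x - c 0‖ = |x| ^ k := by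
    filter_upwards [σr, σt.eventually he, σt.eventually (hh.continuousAt.eventually_ne h0)]
      with x a1 a2 a3
    simp only [hc1]
    rw [a2, norm_smul, ← ek _ a3, norm_pow, ← mul_pow, Real.norm_eq_abs,
      ← abs_of_pos (epos (σ x)), ← abs_mul]
    exact congrArg (fun y => |y| ^ k) a1
  obtain ⟨ε, hε, hb⟩ := Metric.eventually_nhds_iff.1 (ρa.eventually_analyticAt.and
    (continuousAt_const.eventually_lt ρa.deriv.continuousAt (by rw [ρd]; exact epos 0)))
  have hb' : ∀ x ∈ Icc 0 (ε / 2), AnalyticAt ℝ ρ x ∧ 0 < deriv ρ x := fun x hx => hb (by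
    rw [Real.dist_eq, sub_zero, abs_of_nonneg hx.1]; linarith [hx.2])
  have co : ContinuousOn ρ (Icc 0 (ε / 2)) := fun x hx =>
    (hb' x hx).1.continuousAt.continuousWithinAt
  refine reparam (c1 := c1) (half_pos hε) co (strictMonoOn_of_deriv_pos (convex_Icc _ _) co
    fun x hx => (hb' x (interior_subset hx)).2) ρ0 (σl.mono fun t ht => by simp only [hc1, ht]) ?_
  have c1n : AnalyticAt ℝ (fun x => c1 (-x)) 0 :=
    AnalyticAt.comp_of_eq (g := c1) (f := fun x : ℝ => -x) c1a analyticAt_id.neg (by simp)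
  rcases c1n.eventually_eq_or_eventually_ne c1a with hev | hne
  · obtain ⟨g, ga, hg⟩ := even_germ c1a hev
    have g0 : g 0 = c 0 := by have := hg.self_of_nhds; simpa [c10] using this.symm
    have t2 : Tendsto (fun x : ℝ => x ^ 2) (𝓝 0) (𝓝 0) := by
      simpa using (continuous_pow 2 (M := ℝ)).tendsto 0
    have nz : ¬ ∀ᶠ y in 𝓝 (0 : ℝ), g y - g 0 = 0 := fun hz => by
      have a1 : ∀ᶠ x in 𝓝[≠] (0 : ℝ), x = 0 := by
        refine Eventually.filter_mono nhdsWithin_le_nhds ?_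
        filter_upwards [t2.eventually hz, hg, nrm] with x b1 b2 b3
        rw [b2, ← g0, b1, norm_zero] at b3
        exact abs_eq_zero.1 (pow_eq_zero_iff hk.ne' |>.1 b3.symm)
      obtain ⟨x, b1, b2⟩ := (a1.and self_mem_nhdsWithin).exists
      exact b2 b1
    obtain ⟨m, h', ha', h0', he'⟩ :=
      (ga.sub analyticAt_const).exists_eventuallyEq_pow_smul_nonzero_iff.2 nz
    simp only [sub_zero, Pi.sub_apply] at he'
    have m0 : 0 < m := by
      rcases Nat.eq_zero_or_pos m with rfl | h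
      · have := he'.self_of_nhds
        simp only [sub_self, pow_zero, one_smul] at this
        exact absurd this.symm h0'
      · exact h
    have mk : m < k := by
      by_contra hmk
      obtain ⟨j, hj⟩ : ∃ j, 2 * m = k + (j + 1) := ⟨2 * m - k - 1, by omega⟩
      have a1 : ∀ᶠ x in 𝓝[≠] (0 : ℝ), |x| ^ (j + 1) * ‖h' (x ^ 2)‖ = 1 := by
        filter_upwards [self_mem_nhdsWithin, mem_nhdsWithin_of_mem_nhds (t2.eventually he'),
          mem_nhdsWithin_of_mem_nhds hg, mem_nhdsWithin_of_mem_nhds nrm] with x b0 b1 b2 b3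
        have b4 : |x| ^ k ≠ 0 := pow_ne_zero _ (abs_ne_zero.2 b0)
        rw [b2, ← g0, b1, norm_smul, ← pow_mul, hj, norm_pow, pow_add, Real.norm_eq_abs,
          mul_assoc] at b3
        exact mul_left_cancel₀ b4 (b3.trans (mul_one _).symm)
      have a2 : Tendsto (fun x : ℝ => |x| ^ (j + 1) * ‖h' (x ^ 2)‖) (𝓝[≠] 0)
          (𝓝 (|(0 : ℝ)| ^ (j + 1) * ‖h' 0‖)) :=
        (((continuous_abs.tendsto 0).pow _).mul
          (ha'.continuousAt.tendsto.comp t2).norm).mono_left nhdsWithin_le_nhds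
      have a3 := tendsto_nhds_unique (a2.congr' a1) tendsto_const_nhds
      simp at a3
    refine reparam (c1 := g) (ρ := fun x => x ^ 2) one_pos (continuous_pow 2).continuousOn
      (fun x hx y _ hxy => by have := hx.1; simp only; gcongr) (by simp) hg
      (ih m mk g h' ga ha' h0' m0 he')
  · refine arc_inj c1a ?_
    obtain ⟨η, hη, hq⟩ := Metric.eventually_nhds_iff.1
      (nrm.and (eventually_nhdsWithin_iff.1 hne))
    refine ⟨η, hη, fun x y hx hy hxy => ?_⟩
    have a1 := hq (y := x) (by rwa [Real.dist_eq, sub_zero])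
    have a2 := hq (y := y) (by rwa [Real.dist_eq, sub_zero])
    have a3 : |x| = |y| := by
      refine (pow_left_inj₀ (abs_nonneg _) (abs_nonneg _) hk.ne').1 ?_
      rw [← a1.1, ← a2.1, hxy]
    rcases abs_eq_abs.1 a3 with h | h
    · exact h
    · by_cases hy0 : y = 0
      · rw [h, hy0, neg_zero]
      · exact absurd (h ▸ hxy) (a2.2 hy0)

theorem arcGerm : ArcGermStmt := by
  intro c hc hn
  obtain ⟨k, h, ha, h0, he⟩ :=
    (hc.sub (analyticAt_const (v := c 0))).exists_eventuallyEq_pow_smul_nonzero_iff.2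
      (by simpa only [Pi.sub_apply, sub_eq_zero] using hn)
  simp only [sub_zero, Pi.sub_apply] at he
  refine arc_aux k c h hc ha h0 ?_ he
  rcases Nat.eq_zero_or_pos k with rfl | h
  · have := he.self_of_nhds
    simp only [sub_self, pow_zero, one_smul] at this
    exact absurd this.symm h0
  · exact h

theorem level : LevelStmt := by
  intro Ψ hΨ Ψ0 hn
  obtain ⟨n, h, ha, h0, he⟩ := hΨ.exists_eventuallyEq_pow_smul_nonzero_iff.2 hn
  simp only [sub_zero, smul_eq_mul] at he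
  have n0 : 0 < n := by
    rcases Nat.eq_zero_or_pos n with rfl | h
    · have := he.self_of_nhds
      simp only [Ψ0, pow_zero, one_mul] at this
      exact absurd this.symm h0
    · exact h
  have nc : (n : ℂ) ≠ 0 := by exact_mod_cast n0.ne'
  obtain ⟨a, han⟩ := IsAlgClosed.exists_pow_nat_eq (h 0) n0
  have a0 : a ≠ 0 := by rintro rfl; rw [zero_pow n0.ne'] at han; exact h0 han.symm
  set e : ℂ → ℂ := fun s => a * Complex.exp (Complex.log (h s / h 0) / n) with hedef
  have ea : AnalyticAt ℂ e 0 :=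
    analyticAt_const.mul (((ha.div analyticAt_const h0).clog (by
      simp [div_self h0])).div analyticAt_const nc).cexp'
  have e0 : ∀ s, e s ≠ 0 := fun s => mul_ne_zero a0 (Complex.exp_ne_zero _)
  have en : ∀ s, h s ≠ 0 → e s ^ n = h s := fun s hs => by
    simp only [hedef]
    rw [mul_pow, ← Complex.exp_nat_mul, mul_div_cancel₀ _ nc, Complex.exp_log (div_ne_zero hs h0),
      han, mul_div_cancel₀ _ h0]
  set ζ : ℂ → ℂ := fun s => s * e s with hζ
  have ζa : AnalyticAt ℂ ζ 0 := analyticAt_id.mul ea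
  have ζ0 : ζ 0 = 0 := by simp [hζ]
  have ζd : deriv ζ 0 = e 0 := by
    have := ((hasDerivAt_id' (0 : ℂ)).fun_mul ea.differentiableAt.hasDerivAt).deriv
    simpa using this
  have ζd' : deriv ζ 0 ≠ 0 := by rw [ζd]; exact e0 0
  set σ := ζa.hasStrictDerivAt.localInverse _ _ _ ζd' with hσ
  have σa : AnalyticAt ℂ σ 0 := by
    have := ζa.analyticAt_localInverse ζd'
    rwa [ζ0] at this
  have σl : ∀ᶠ t in 𝓝 (0 : ℂ), σ (ζ t) = t := HasStrictDerivAt.eventually_left_inverse ..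
  have σ0 : σ 0 = 0 := by have := σl.self_of_nhds; rwa [ζ0] at this
  have σd : HasDerivAt σ (deriv ζ 0)⁻¹ 0 := by
    have := (HasStrictDerivAt.to_localInverse ζa.hasStrictDerivAt ζd').hasDerivAt
    rwa [ζ0] at this
  set T : Finset ℂ := nthRootsFinset (2 * n) (-1) with hT
  have mT : ∀ κ, κ ∈ T ↔ κ ^ (2 * n) = -1 := fun κ => mem_nthRootsFinset (by omega) _
  refine ⟨T.card, fun l t => σ ((T.equivFin.symm l : ℂ) * t), fun l => ?_, fun δ hδ => ?_⟩
  · set κ : ℂ := (T.equivFin.symm l : ℂ)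
    have κ0 : κ ≠ 0 := fun h => by
      have := (mT κ).1 (T.equivFin.symm l).2
      rw [h, zero_pow (by omega)] at this
      simp at this
    refine ⟨AnalyticAt.comp_of_eq (g := σ) (f := fun t : ℝ => κ * t) σa.restrictScalars
      (analyticAt_const.mul (Complex.ofRealCLM.analyticAt _)) (by simp), by simp [σ0], ?_⟩
    have a1 : HasDerivAt (fun z : ℂ => σ (κ * z)) ((deriv ζ 0)⁻¹ * κ) ((0 : ℝ) : ℂ) := by
      have := HasDerivAt.comp_of_eq (h₂ := σ) (h := fun z : ℂ => κ * z) ((0 : ℝ) : ℂ) σd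
        ((hasDerivAt_id _).const_mul κ) (by simp)
      rw [mul_one] at this
      exact this
    rw [a1.comp_ofReal.deriv]
    exact mul_ne_zero (inv_ne_zero ζd') κ0
  · have t : ∀ᶠ s in 𝓝 (0 : ℂ), ‖ζ s‖ < δ :=
      ζa.continuousAt.norm.eventually_lt continuousAt_const (by simpa [ζ0] using hδ)
    filter_upwards [self_mem_nhdsWithin, mem_nhdsWithin_of_mem_nhds t,
      mem_nhdsWithin_of_mem_nhds σl, mem_nhdsWithin_of_mem_nhds he,
      mem_nhdsWithin_of_mem_nhds (ha.continuousAt.eventually_ne h0)] with s s0 b1 b2 b3 b4 hre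
    have z0 : ζ s ≠ 0 := mul_ne_zero s0 (e0 s)
    have z1 : 0 < ‖ζ s‖ := norm_pos_iff.2 z0
    have z2 : ((‖ζ s‖ : ℝ) : ℂ) ≠ 0 := by exact_mod_cast z1.ne'
    have zn : ζ s ^ n = Ψ s := by simp only [hζ]; rw [mul_pow, en s b4, b3]
    have hk : ζ s / ‖ζ s‖ ∈ T := by
      rw [mT, div_pow, div_eq_iff (pow_ne_zero _ z2), mul_comm 2 n, pow_mul, pow_mul,
        ← Complex.ofReal_pow, ← norm_pow, zn, ← Complex.ofReal_pow, Complex.sq_norm,
        Complex.normSq_apply]
      apply Complex.ext <;> simp [pow_two, hre]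
    refine ⟨T.equivFin ⟨_, hk⟩, ‖ζ s‖, ⟨z1, b1⟩, ?_⟩
    simp only [Equiv.symm_apply_apply]
    rw [div_mul_cancel₀ _ z2, b2]

end Pool.Agent.MP_46692b_an.H17
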